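import Mathlib

set_option autoImplicit false
set_option linter.unusedSectionVars false

/-! Tent functions separating a point from a compact set of its translates. -/

namespace Pool.Agent.V8H18.TX

open Set Filter Topology MeasureTheory

/-- The tent functions. -/
noncomputable def tent {X : Type} (Ψ : ℕ → X → ℝ) (p : (J : ℕ) × (Fin J → ℚ) × ℕ) (x : X) : ℝ :=
  1 - (p.2.2 : ℝ) * ∑ j : Fin p.1, |Ψ j x - p.2.1 j|

theorem tent_meas {X : Type} [MeasurableSpace X] {Ψ : ℕ → X → ℝ} (hΨ : ∀ k, Measurable (Ψ k))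
    (p : (J : ℕ) × (Fin J → ℚ) × ℕ) : Measurable (tent Ψ p) := by
  unfold tent
  refine measurable_const.sub (measurable_const.mul (Finset.measurable_sum _ fun j _ => ?_))
  have := ((hΨ j).sub_const ((p.2.1 j : ℚ) : ℝ)).norm
  simpa [Real.norm_eq_abs] using this

theorem tent_unif {G X : Type} [TopologicalSpace G] [Group G] [IsTopologicalGroup G]
    [MulAction G X] {Ψ : ℕ → X → ℝ}
    (hu : ∀ k, ∀ ε > 0, ∃ O ∈ 𝓝 (1 : G), ∀ g ∈ O, ∀ x, |Ψ k (g • x) - Ψ k x| ≤ ε)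
    (p : (J : ℕ) × (Fin J → ℚ) × ℕ) (ε : ℝ) (hε : 0 < ε) :
    ∃ O ∈ 𝓝 (1 : G), ∀ g ∈ O, ∀ x, |tent Ψ p (g • x) - tent Ψ p x| ≤ ε := by
  obtain ⟨J, r, R⟩ := p
  set η : ℝ := ε / ((R : ℝ) * J + 1) with hη
  have hpos : (0 : ℝ) < (R : ℝ) * J + 1 := by positivity
  have hη0 : 0 < η := div_pos hε hpos
  choose O hO hO' using fun j : Fin J => hu j η hη0
  refine ⟨⋂ j, O j, (Filter.iInter_mem).2 hO, fun g hg x => ?_⟩
  have h1 : ∀ j : Fin J, |Ψ j (g • x) - Ψ j x| ≤ η := fun j => hO' j g (mem_iInter.1 hg j) x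
  have h2 : tent Ψ ⟨J, r, R⟩ (g • x) - tent Ψ ⟨J, r, R⟩ x =
      (R : ℝ) * ∑ j : Fin J, (|Ψ j x - r j| - |Ψ j (g • x) - r j|) := by
    unfold tent
    rw [Finset.sum_sub_distrib]
    simp only
    ring
  rw [h2, abs_mul, abs_of_nonneg (Nat.cast_nonneg R)]
  have h3 : |∑ j : Fin J, (|Ψ j x - r j| - |Ψ j (g • x) - r j|)| ≤ J * η := by
    refine (Finset.abs_sum_le_sum_abs _ _).trans ?_
    have h4 : ∀ j : Fin J, |(|Ψ j x - r j| - |Ψ j (g • x) - r j|)| ≤ η := by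
      intro j
      refine (abs_abs_sub_abs_le_abs_sub _ _).trans ?_
      have : Ψ j x - r j - (Ψ j (g • x) - r j) = -(Ψ j (g • x) - Ψ j x) := by ring
      rw [this, abs_neg]
      exact h1 j
    calc ∑ j : Fin J, |(|Ψ j x - r j| - |Ψ j (g • x) - r j|)| ≤ ∑ _j : Fin J, η :=
          Finset.sum_le_sum fun j _ => h4 j
      _ = J * η := by simp
  calc (R : ℝ) * |∑ j : Fin J, (|Ψ j x - r j| - |Ψ j (g • x) - r j|)| ≤ (R : ℝ) * (J * η) :=
        mul_le_mul_of_nonneg_left h3 (Nat.cast_nonneg R)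
    _ = ((R : ℝ) * J) * η := by ring
    _ ≤ ((R : ℝ) * J + 1) * η := by nlinarith
    _ = ε := by rw [hη]; field_simp

theorem sep_compact {G X : Type} [TopologicalSpace G] [Group G] [IsTopologicalGroup G]
    [MulAction G X] {Ψ : ℕ → X → ℝ}
    (hu : ∀ k, ∀ ε > 0, ∃ O ∈ 𝓝 (1 : G), ∀ g ∈ O, ∀ x, |Ψ k (g • x) - Ψ k x| ≤ ε)
    (hsep : ∀ x y, (∀ k, Ψ k x = Ψ k y) → x = y) (x : X) (K : Set G) (hK : IsCompact K)
    (hx : ∀ g ∈ K, g • x ≠ x) :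
    ∃ (J : ℕ) (ε : ℝ), 0 < ε ∧ ∀ g ∈ K, ∃ j < J, ε ≤ |Ψ j (g • x) - Ψ j x| := by
  refine hK.induction_on (p := fun S => ∃ (J : ℕ) (ε : ℝ), 0 < ε ∧
    ∀ g ∈ S, ∃ j < J, ε ≤ |Ψ j (g • x) - Ψ j x|) ?_ ?_ ?_ ?_
  · exact ⟨0, 1, one_pos, fun g hg => absurd hg (notMem_empty g)⟩
  · rintro s t hst ⟨J, ε, hε, h⟩
    exact ⟨J, ε, hε, fun g hg => h g (hst hg)⟩
  · rintro s t ⟨J, ε, hε, h⟩ ⟨J', ε', hε', h'⟩
    refine ⟨max J J', min ε ε', lt_min hε hε', fun g hg => ?_⟩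
    rcases hg with hg | hg
    · obtain ⟨j, hj, hj'⟩ := h g hg
      exact ⟨j, lt_max_of_lt_left hj, (min_le_left _ _).trans hj'⟩
    · obtain ⟨j, hj, hj'⟩ := h' g hg
      exact ⟨j, lt_max_of_lt_right hj, (min_le_right _ _).trans hj'⟩
  · intro g hg
    obtain ⟨k, hk⟩ : ∃ k, Ψ k (g • x) ≠ Ψ k x := by
      by_contra hcon
      push Not at hcon
      exact hx g hg (hsep _ _ hcon)
    set d : ℝ := |Ψ k (g • x) - Ψ k x| with hd
    have hd0 : 0 < d := abs_pos.2 (sub_ne_zero.2 hk)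
    obtain ⟨O, hO, hO'⟩ := hu k (d / 2) (by positivity)
    have hcont : Tendsto (fun g' : G => g' * g⁻¹) (𝓝 g) (𝓝 1) := by
      have : Continuous fun g' : G => g' * g⁻¹ := continuous_mul_const _
      have h2 := this.tendsto g
      simpa using h2
    refine ⟨_, mem_nhdsWithin_of_mem_nhds (hcont hO), k + 1, d / 2, by positivity, fun g' hg' => ?_⟩
    refine ⟨k, Nat.lt_succ_self k, ?_⟩
    have h1 := hO' (g' * g⁻¹) hg' (g • x)
    rw [smul_smul, inv_mul_cancel_right] at h1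
    have h2 : d ≤ |Ψ k (g' • x) - Ψ k x| + |Ψ k (g' • x) - Ψ k (g • x)| := by
      rw [hd]
      have h3 : Ψ k (g • x) - Ψ k x = (Ψ k (g' • x) - Ψ k x) - (Ψ k (g' • x) - Ψ k (g • x)) := by
        ring
      rw [h3]
      exact abs_sub _ _
    linarith

/-- T2 (tent functions). -/
theorem exists_tent {G X : Type} [TopologicalSpace G] [Group G] [IsTopologicalGroup G]
    [MeasurableSpace X] [MulAction G X] {Ψ : ℕ → X → ℝ} (hΨ : ∀ k, Measurable (Ψ k))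
    (hu : ∀ k, ∀ ε > 0, ∃ O ∈ 𝓝 (1 : G), ∀ g ∈ O, ∀ x, |Ψ k (g • x) - Ψ k x| ≤ ε)
    (hsep : ∀ x y, (∀ k, Ψ k x = Ψ k y) → x = y) :
    ∃ f : ℕ → X → ℝ, (∀ k, Measurable (f k)) ∧
      (∀ k, ∀ ε > 0, ∃ O ∈ 𝓝 (1 : G), ∀ g ∈ O, ∀ x, |f k (g • x) - f k x| ≤ ε) ∧
      ∀ (x : X) (K : Set G), IsCompact K → (∀ g ∈ K, g • x ≠ x) →
        ∃ k, 3 / 4 ≤ f k x ∧ ∀ g ∈ K, f k (g • x) ≤ 0 := by
  have hne : Nonempty ((J : ℕ) × (Fin J → ℚ) × ℕ) := ⟨⟨0, fun _ => 0, 0⟩⟩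
  obtain ⟨φ, hφ⟩ := exists_surjective_nat ((J : ℕ) × (Fin J → ℚ) × ℕ)
  refine ⟨fun k => tent Ψ (φ k), fun k => tent_meas hΨ _, fun k ε hε => tent_unif hu _ ε hε, ?_⟩
  intro x K hK hx
  obtain ⟨J, ε, hε, h⟩ := sep_compact hu hsep x K hK hx
  obtain ⟨R, hR⟩ := exists_nat_gt (max (2 / ε) 1)
  have hR1 : (1 : ℝ) < R := (le_max_right _ _).trans_lt hR
  have hR2 : 2 / ε < R := (le_max_left _ _).trans_lt hR
  have hRε : 2 < R * ε := by rwa [div_lt_iff₀ hε] at hR2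
  set η : ℝ := 1 / (4 * R * (J + 1)) with hη
  have hη0 : 0 < η := by positivity
  choose r hr using fun j : Fin J => exists_rat_near (Ψ j x) hη0
  obtain ⟨k, hk⟩ := hφ ⟨J, r, R⟩
  refine ⟨k, ?_, ?_⟩
  · show 3 / 4 ≤ tent Ψ (φ k) x
    rw [hk]
    unfold tent
    simp only
    have h1 : ∑ j : Fin J, |Ψ j x - r j| ≤ J * η := by
      calc ∑ j : Fin J, |Ψ j x - r j| ≤ ∑ _j : Fin J, η := Finset.sum_le_sum fun j _ => (hr j).le
        _ = J * η := by simp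
    have h2 : (R : ℝ) * (J * η) ≤ 1 / 4 := by
      have h3 : (R : ℝ) * (J * η) = (J : ℝ) / (4 * (J + 1)) := by
        rw [hη]
        field_simp
      rw [h3, div_le_div_iff₀ (by positivity) (by norm_num)]
      linarith
    have h4 : (R : ℝ) * ∑ j : Fin J, |Ψ j x - r j| ≤ (R : ℝ) * (J * η) :=
      mul_le_mul_of_nonneg_left h1 (by linarith)
    linarith
  · intro g hg
    show tent Ψ (φ k) (g • x) ≤ 0
    rw [hk]
    unfold tent
    simp only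
    obtain ⟨j, hj, hj'⟩ := h g hg
    have h1 : |Ψ j (g • x) - r ⟨j, hj⟩| ≤ ∑ j : Fin J, |Ψ j (g • x) - r j| :=
      Finset.single_le_sum (f := fun j : Fin J => |Ψ j (g • x) - r j|)
        (fun i _ => abs_nonneg _) (Finset.mem_univ (⟨j, hj⟩ : Fin J))
    have h2 : ε ≤ |Ψ j (g • x) - r ⟨j, hj⟩| + η := by
      refine hj'.trans ?_
      have h3 := (hr ⟨j, hj⟩).le
      have h4 : Ψ j (g • x) - Ψ j x = (Ψ j (g • x) - r ⟨j, hj⟩) - (Ψ j x - r ⟨j, hj⟩) := by ring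
      rw [h4]
      exact (abs_sub _ _).trans (by linarith)
    have h5 : (R : ℝ) * η ≤ 1 / 4 := by
      have h6 : (R : ℝ) * η = 1 / (4 * (J + 1)) := by
        rw [hη]
        field_simp
      rw [h6, div_le_div_iff₀ (by positivity) (by norm_num)]
      have : (0 : ℝ) ≤ J := Nat.cast_nonneg J
      linarith
    have h7 : (R : ℝ) * (ε - η) ≤ (R : ℝ) * ∑ j : Fin J, |Ψ j (g • x) - r j| :=
      mul_le_mul_of_nonneg_left (by linarith) (by linarith)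
    nlinarith

end Pool.Agent.V8H18.TX
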